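import Mathlib
import Pool.Agent.H759R2.Kad.Props

open scoped ComplexOrder InnerProductSpace ComplexConjugate
open Finset

noncomputable section

namespace H759R2.Kad

universe u v

theorem growth_key (g : ℕ → ℝ) (hgn : ∀ n, g n ≤ n)
    (hrec : ∀ Q m l : ℕ, 0 < Q → 128 * Q ^ 3 ≤ m → m ≤ Q * l → g m ≤ 50 * g l + 16 * Q ^ 2)
    (Q : ℕ) (hQ : 3 ≤ Q) (k : ℕ) :
    ∀ n : ℕ, (n : ℝ) ≤ 128 * Q ^ 3 * (Q / 2) ^ k → g n ≤ 144 * Q ^ 3 * 51 ^ k := by
  have hQr : (3 : ℝ) ≤ Q := by exact_mod_cast hQ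
  have hQ0 : (0 : ℝ) < Q := by linarith
  have hQ3 : (0 : ℝ) < (Q : ℝ) ^ 3 := by positivity
  induction k with
  | zero =>
    intro n hn
    simp only [pow_zero, mul_one] at hn ⊢
    have h1 := hgn n
    linarith
  | succ k ih =>
    intro n hn
    have h51 : (1 : ℝ) ≤ 51 ^ k := one_le_pow₀ (by norm_num)
    have hprod : (Q : ℝ) ^ 3 ≤ Q ^ 3 * 51 ^ k := le_mul_of_one_le_right hQ3.le h51
    rcases lt_or_ge n (128 * Q ^ 3) with hlt | hge
    · have h1 : (n : ℝ) < 128 * Q ^ 3 := by exact_mod_cast hlt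
      have h2 := hgn n
      have h3 : (144 : ℝ) * Q ^ 3 * 51 ^ (k + 1) = 7344 * (Q ^ 3 * 51 ^ k) := by ring
      rw [h3]
      linarith
    · have hge' : (128 : ℝ) * Q ^ 3 ≤ n := by exact_mod_cast hge
      set l := ⌈(n : ℝ) / Q⌉₊ with hl
      have hl1 : (n : ℝ) / Q ≤ l := Nat.le_ceil _
      have hl2 : (l : ℝ) < n / Q + 1 := Nat.ceil_lt_add_one (by positivity)
      have hnl : n ≤ Q * l := by
        have h1 : (n : ℝ) ≤ Q * l := by
          rw [div_le_iff₀ hQ0] at hl1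
          linarith
        exact_mod_cast h1
      have h1n : (1 : ℝ) ≤ n / Q := by
        rw [le_div_iff₀ hQ0]
        have h2 : (Q : ℝ) ≤ 128 * Q ^ 3 := by nlinarith [mul_pos hQ0 hQ0]
        linarith
      have hl3 : (l : ℝ) ≤ 128 * Q ^ 3 * (Q / 2) ^ k := by
        have h2 : (l : ℝ) ≤ 2 * (n / Q) := by linarith
        have h3 : (n : ℝ) / Q ≤ (128 * Q ^ 3 * (Q / 2) ^ (k + 1)) / Q :=
          div_le_div_of_nonneg_right hn hQ0.le
        have h4 : (128 * (Q : ℝ) ^ 3 * (Q / 2) ^ (k + 1)) / Q = 128 * Q ^ 3 * (Q / 2) ^ k / 2 := by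
          rw [pow_succ (Q / 2 : ℝ) k]
          field_simp
        rw [h4] at h3
        linarith
      have h5 := ih l hl3
      have h6 := hrec Q n l (by omega) hge hnl
      have h7 : (Q : ℝ) ^ 2 ≤ Q ^ 3 := pow_le_pow_right₀ (by linarith) (by norm_num)
      have h3 : (144 : ℝ) * Q ^ 3 * 51 ^ (k + 1) = 7344 * (Q ^ 3 * 51 ^ k) := by ring
      have h8 : (144 : ℝ) * Q ^ 3 * 51 ^ k = 144 * (Q ^ 3 * 51 ^ k) := by ring
      rw [h3]
      rw [h8] at h5
      linarith

theorem prove_growth : St_growth := by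
  intro g hg0 hgn hrec n hn
  have hnr : (1 : ℝ) ≤ n := by exact_mod_cast hn
  have hn0 : (0 : ℝ) < n := by linarith
  set L := Real.log n with hL
  have hL0 : 0 ≤ L := Real.log_nonneg hnr
  set s := √L with hs
  have hs0 : 0 ≤ s := Real.sqrt_nonneg _
  have hss : s * s = L := Real.mul_self_sqrt hL0
  have hexpL : Real.exp L = n := Real.exp_log hn0
  have he1 := Real.exp_one_lt_d9
  have he2 := Real.exp_one_gt_d9
  have hexp4 : Real.exp 4 = Real.exp 1 ^ 4 := by
    rw [← Real.exp_nat_mul]; norm_num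
  have hln2 := Real.log_two_lt_d9
  have hln2' := Real.log_two_gt_d9
  rcases lt_or_ge s (2 * Real.log 2) with hlt | hge
  · have h1 : L < 4 := by nlinarith
    have h2 : (n : ℝ) < 60000 := by
      rw [← hexpL]
      refine (Real.exp_lt_exp.2 h1).trans ?_
      rw [hexp4]
      calc Real.exp 1 ^ 4 < 3 ^ 4 := by
            apply pow_lt_pow_left₀ _ (Real.exp_pos 1).le (by norm_num)
            linarith
        _ < 60000 := by norm_num
    have h3 := hgn n
    have h4 : (1 : ℝ) ≤ Real.exp (11 * s) := Real.one_le_exp (by positivity)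
    linarith
  · set Q := ⌈Real.exp s⌉₊ with hQ
    have hQ1 : Real.exp s ≤ Q := Nat.le_ceil _
    have hQ2 : (Q : ℝ) < Real.exp s + 1 := Nat.ceil_lt_add_one (Real.exp_pos s).le
    have hexps : 4 ≤ Real.exp s := by
      have h1 : Real.exp (2 * Real.log 2) = 4 := by
        rw [mul_comm, Real.exp_mul, Real.exp_log (by norm_num)]
        norm_num
      rw [← h1]
      exact Real.exp_le_exp.2 hge
    have hQ3 : 3 ≤ Q := by
      have : (3 : ℝ) ≤ Q := by linarith
      exact_mod_cast this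
    have hQ4 : (Q : ℝ) ≤ 2 * Real.exp s := by linarith
    set k := ⌈2 * s⌉₊ with hk
    have hk1 : 2 * s ≤ k := Nat.le_ceil _
    have hk2 : (k : ℝ) < 2 * s + 1 := Nat.ceil_lt_add_one (by positivity)
    have hQ5 : Real.exp (s / 2) ≤ Q / 2 := by
      have h1 : Real.exp (s / 2) ≤ Real.exp (s - Real.log 2) := Real.exp_le_exp.2 (by linarith)
      rw [Real.exp_sub, Real.exp_log (by norm_num)] at h1
      linarith
    have hnle : (n : ℝ) ≤ 128 * Q ^ 3 * (Q / 2) ^ k := by
      have h1 : (n : ℝ) ≤ (Q / 2) ^ k := by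
        rw [← hexpL]
        calc Real.exp L ≤ Real.exp (k * (s / 2)) := Real.exp_le_exp.2 (by nlinarith)
          _ = Real.exp (s / 2) ^ k := by rw [Real.exp_nat_mul]
          _ ≤ (Q / 2) ^ k := pow_le_pow_left₀ (Real.exp_pos _).le hQ5 k
      have h2 : (1 : ℝ) ≤ 128 * Q ^ 3 := by
        have : (1 : ℝ) ≤ Q ^ 3 := one_le_pow₀ (by linarith)
        linarith
      have h3 : (0 : ℝ) ≤ (Q / 2 : ℝ) ^ k := by positivity
      nlinarith
    have h1 := growth_key g hgn hrec Q hQ3 k n hnle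
    have h2 : (Q : ℝ) ^ 3 ≤ 8 * Real.exp (3 * s) := by
      calc (Q : ℝ) ^ 3 ≤ (2 * Real.exp s) ^ 3 := pow_le_pow_left₀ (by positivity) hQ4 3
        _ = 8 * Real.exp (3 * s) := by
          rw [mul_pow, ← Real.exp_nat_mul]; norm_num
    have hlog51 : Real.log 51 ≤ 4 := by
      rw [Real.log_le_iff_le_exp (by norm_num), hexp4]
      calc (51 : ℝ) ≤ 2.7 ^ 4 := by norm_num
        _ ≤ Real.exp 1 ^ 4 := pow_le_pow_left₀ (by norm_num) (by linarith) 4
    have hlog51' : 0 ≤ Real.log 51 := Real.log_nonneg (by norm_num)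
    have h3 : (51 : ℝ) ^ k ≤ 51 * Real.exp (8 * s) := by
      have h4 : (51 : ℝ) ^ k = Real.exp (k * Real.log 51) := by
        rw [Real.exp_nat_mul, Real.exp_log (by norm_num)]
      rw [h4]
      calc Real.exp (k * Real.log 51) ≤ Real.exp (Real.log 51 + 8 * s) := by
            apply Real.exp_le_exp.2
            nlinarith
        _ = 51 * Real.exp (8 * s) := by
            rw [Real.exp_add, Real.exp_log (by norm_num)]
    have h4 : (144 : ℝ) * Q ^ 3 * 51 ^ k ≤ 144 * (8 * Real.exp (3 * s)) * (51 * Real.exp (8 * s)) := by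
      gcongr
    have h5 : Real.exp (11 * s) = Real.exp (3 * s) * Real.exp (8 * s) := by
      rw [← Real.exp_add]; ring_nf
    have h6 : 0 < Real.exp (3 * s) * Real.exp (8 * s) := by positivity
    rw [h5]
    nlinarith

end H759R2.Kad
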