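import Mathlib
import Pool.Agent.H759R2.Kad.Props

open scoped ComplexOrder InnerProductSpace ComplexConjugate
open Finset

noncomputable section

namespace H759R2.Kad

universe u v

theorem tracial_star {A : Type u} [CStarAlgebra A] {τ : A →ₗ[ℂ] ℂ} (h : IsTracialState τ) (a : A) :
    τ (star a) = conj (τ a) := by
  have hre : ∀ b, (τ (star b * b)).im = 0 := fun b => by
    have h1 := h.pos b
    rw [Complex.le_def] at h1
    exact h1.2.symm
  have h0 := hre a
  have h1 := hre (a + 1)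
  have h2 := hre (a + Complex.I • (1 : A))
  have e1 : star (a + 1) * (a + 1) = star a * a + star a + a + 1 := by
    rw [star_add, star_one]
    noncomm_ring
  have e2 : star (a + Complex.I • (1 : A)) * (a + Complex.I • (1 : A)) =
      star a * a + Complex.I • star a - Complex.I • a + 1 := by
    rw [star_add, star_smul, star_one]
    have h3 : star Complex.I = -Complex.I := Complex.conj_I
    rw [h3]
    have h4 : (-Complex.I • (1 : A)) * (Complex.I • (1 : A)) = 1 := by
      rw [smul_mul_smul_comm, one_mul]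
      simp
    rw [add_mul, mul_add, mul_add, h4, mul_smul_comm, mul_one, smul_mul_assoc, one_mul, neg_smul]
    abel
  rw [e1, map_add, map_add, map_add, h.one] at h1
  rw [e2, map_add, map_sub, map_add, map_smul, map_smul, h.one] at h2
  simp only [Complex.add_im, Complex.one_im, Complex.sub_im, smul_eq_mul, Complex.mul_im,
    Complex.I_re, Complex.I_im, zero_mul, one_mul, zero_add] at h1 h2
  apply Complex.ext
  · rw [Complex.conj_re]; linarith
  · rw [Complex.conj_im]; linarith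

theorem tr_star {A : Type u} [CStarAlgebra A] {τ : A →ₗ[ℂ] ℂ} (h : IsTracialState τ)
    {ι : Type} [Fintype ι] (X : CStarMatrix ι ι A) : tr τ ι (star X) = conj (tr τ ι X) := by
  rw [tr_apply, tr_apply, map_sum]
  refine Finset.sum_congr rfl fun i _ => ?_
  rw [CStarMatrix.star_apply]
  exact tracial_star h _

theorem tr_one {A : Type u} [CStarAlgebra A] {τ : A →ₗ[ℂ] ℂ} (h : IsTracialState τ)
    {ι : Type} [Fintype ι] [DecidableEq ι] :
    tr τ ι (1 : CStarMatrix ι ι A) = (Fintype.card ι : ℂ) := by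
  rw [tr_apply]
  simp [CStarMatrix.one_apply, h.one]

theorem ph_unitary {ι : Type} [Fintype ι] [DecidableEq ι] {R : ℕ} [NeZero R] (A : Type u)
    [CStarAlgebra A] (ω : ι → ZMod R) : ph A ω ∈ unitary (CStarMatrix ι ι A) := by
  have hchi : ∀ c, conj (chi ω c) * chi ω c = 1 := by
    intro c
    rw [Complex.conj_mul']
    have : ‖chi ω c‖ = 1 := by
      unfold chi
      exact AddChar.norm_apply _ _
    rw [this]; norm_num
  have hap : ∀ i j, ph A ω i j = if i = j then chi ω i • (1 : A) else 0 := by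
    intro i j
    exact Matrix.diagonal_apply _ _ _
  have hst : ∀ i j, (star (ph A ω)) i j = if i = j then conj (chi ω i) • (1 : A) else 0 := by
    intro i j
    rw [CStarMatrix.star_apply, hap]
    by_cases hij : i = j
    · subst hij
      simp
    · rw [if_neg (Ne.symm hij), if_neg hij, star_zero]
  rw [Unitary.mem_iff]
  constructor
  · ext i j
    rw [CStarMatrix.mul_apply, CStarMatrix.one_apply, Finset.sum_eq_single i]
    · rw [hst, if_pos rfl, hap]
      by_cases hij : i = j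
      · rw [if_pos hij, if_pos hij, smul_mul_smul_comm, hchi, one_mul, one_smul]
      · rw [if_neg hij, if_neg hij, mul_zero]
    · intro b _ hb
      rw [hst, if_neg (Ne.symm hb), zero_mul]
    · intro h; exact absurd (Finset.mem_univ _) h
  · ext i j
    rw [CStarMatrix.mul_apply, CStarMatrix.one_apply, Finset.sum_eq_single i]
    · rw [hap, if_pos rfl, hst]
      by_cases hij : i = j
      · rw [if_pos hij, if_pos hij, smul_mul_smul_comm, mul_comm, hchi, one_mul, one_smul]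
      · rw [if_neg hij, if_neg hij, mul_zero]
    · intro b _ hb
      rw [hap, if_neg (Ne.symm hb), zero_mul]
    · intro h; exact absurd (Finset.mem_univ _) h

theorem aux_sum {Ω : Type} [Fintype Ω] (a b c d : ℝ) (N : ℕ) (T : Ω → ℕ → ℝ) :
    ∑ ω, (a + b * (c + d * ∑ k ∈ range N, T ω k)) = (Fintype.card Ω : ℝ) * a +
      b * ((Fintype.card Ω : ℝ) * c + d * ∑ k ∈ range N, ∑ ω, T ω k) := by
  rw [Finset.sum_add_distrib, Finset.sum_const, Finset.card_univ, nsmul_eq_mul, ← Finset.mul_sum,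
    Finset.sum_add_distrib, Finset.sum_const, Finset.card_univ, nsmul_eq_mul, ← Finset.mul_sum,
    Finset.sum_comm]

theorem prove_rec (h1 : St_entry.{u, v}) (h2 : St_embed.{u, v}) (h3 : St_det.{u, v}) (h4 : St_phtr.{u})
    (h5 : St_tele.{u, v}) (h6 : St_ext.{u, v}) : St_rec.{u, v} := by
  intro A _ _ _ H _ _ _ π D τ hD hτ hdix γ1 γl hγ1 hγl hD1 Q m l hQ hm hml hl
  have hQr : (0 : ℝ) < Q := by exact_mod_cast hQ
  have hm0 : 0 < m := lt_of_lt_of_le (by positivity) hm
  have hmr : (0 : ℝ) < m := by exact_mod_cast hm0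
  have hl0 : 0 < l := by
    rcases Nat.eq_zero_or_pos l with h | h
    · subst h; omega
    · exact h
  have hlr : (0 : ℝ) < l := by exact_mod_cast hl0
  have hmr2 : (128 : ℝ) * Q ^ 3 ≤ m := by exact_mod_cast hm
  have hmlr : (m : ℝ) ≤ Q * l := by exact_mod_cast hml
  have hM : ∀ x ∈ unitary (CStarMatrix (Fin m) (Fin m) A), ∀ θ : HH (Fin m) H, ‖θ‖ = 1 →
      ‖⟪θ, (amp D (Fin m) x * star (ampHom π (Fin m) x)) θ⟫_ℂ‖ ≤ 25 * γl + 8 * Q ^ 2 * γ1 := by
    intro x hx θ hθ
    haveI : NeZero (2 * Q + 2) := ⟨by omega⟩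
    set G : ℝ := (Fintype.card (Fin m → ZMod (2 * Q + 2)) : ℝ) with hG
    have hG0 : 0 < G := by
      rw [hG]
      exact_mod_cast Fintype.card_pos
    set S : (Fin m → ZMod (2 * Q + 2)) → ℂ := fun ω =>
      (∑ p ∈ range Q, ⟪ampHom π (Fin m) ((x * ph A ω) ^ p) θ, amp D (Fin m) ((x * ph A ω) ^ p) θ⟫_ℂ) +
        ∑ q ∈ range Q, ⟪θ, amp D (Fin m) ((x * ph A ω) ^ (q + 1))
            (ampHom π (Fin m) (star (x * ph A ω) ^ (q + 1)) θ)⟫_ℂ with hS
    set T : (Fin m → ZMod (2 * Q + 2)) → ℕ → ℝ := fun ω k =>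
      ‖tr τ (Fin m) ((x * ph A ω) ^ (k + 1))‖ with hT
    have hT0 : ∀ ω k, 0 ≤ T ω k := fun ω k => norm_nonneg _
    have ht1 : (tr τ (Fin m) (1 : CStarMatrix (Fin m) (Fin m) A)).re = m := by
      rw [tr_one hτ, Fintype.card_fin]
      exact Complex.natCast_re m
    have hdet : ∀ ω, ‖S ω‖ ^ 2 ≤ 4 * Q ^ 2 * (86 * γl ^ 2) + 84 * γl ^ 2 / l *
        (2 * Q * m + 4 * Q * ∑ k ∈ range (2 * Q), T ω k) := by
      intro ω
      have h7 := h3 (CStarMatrix (Fin m) (Fin m) A) (HH (Fin m) H) (ampHom π (Fin m))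
        (amp D (Fin m)) (hD.amp (Fin m)) (tr τ (Fin m)) (tr_star hτ) (by rw [ht1]; exact hmr.le)
        (86 * γl ^ 2) (84 * γl ^ 2 / l) (by positivity) (by positivity)
        (fun X ξ => by
          refine (h2 A H π D τ hD hτ hdix m l Q hl0 hQ hml γl hγl hl X ξ).trans_eq ?_
          ring) (x * ph A ω) (mul_mem hx (ph_unitary A ω)) θ hθ Q hQ
      rw [ht1] at h7
      exact h7
    have htr : ∀ k ∈ range (2 * Q), ∑ ω, T ω k ≤ G * (m / (8 * Q)) := by
      intro k hk
      rw [Finset.mem_range] at hk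
      have h7 : ∑ ω, T ω k ^ 2 ≤ G * ((k + 1) * m) := by
        have := h4 (Fin m) (2 * Q + 2) A τ hτ x hx k (by omega)
        rw [Fintype.card_fin] at this
        exact this
      have h8 : (∑ ω, T ω k) ^ 2 ≤ G * ∑ ω, T ω k ^ 2 := by
        have := sq_sum_le_card_mul_sum_sq (s := (Finset.univ : Finset (Fin m → ZMod (2 * Q + 2))))
          (f := fun ω => T ω k)
        rw [Finset.card_univ] at this
        exact this
      have h9 : (0 : ℝ) ≤ ∑ ω, T ω k := Finset.sum_nonneg fun ω _ => hT0 ω k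
      have hk' : ((k : ℝ) + 1) ≤ 2 * Q := by exact_mod_cast hk
      rw [← pow_le_pow_iff_left₀ h9 (by positivity) two_ne_zero]
      refine h8.trans ((mul_le_mul_of_nonneg_left h7 hG0.le).trans ?_)
      have h10 : ((k : ℝ) + 1) * m ≤ 2 * Q * m := mul_le_mul_of_nonneg_right hk' hmr.le
      have h11 : 2 * (Q : ℝ) * m ≤ (m / (8 * Q)) ^ 2 := by
        rw [div_pow, le_div_iff₀ (by positivity)]
        have h12 : 2 * (Q : ℝ) * m * (8 * Q) ^ 2 = (128 * Q ^ 3) * m := by ring
        rw [h12, sq]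
        exact mul_le_mul_of_nonneg_right hmr2 hmr.le
      calc G * (G * ((k + 1) * m)) ≤ G * (G * (m / (8 * Q)) ^ 2) := by
            have := h10.trans h11
            gcongr
        _ = (G * (m / (8 * Q))) ^ 2 := by ring
    have hsum : ∑ ω, ‖S ω‖ ^ 2 ≤ G * (596 * Q ^ 2 * γl ^ 2) := by
      have h7 : ∑ ω, ‖S ω‖ ^ 2 ≤ ∑ ω, (4 * Q ^ 2 * (86 * γl ^ 2) + 84 * γl ^ 2 / l *
        (2 * Q * m + 4 * Q * ∑ k ∈ range (2 * Q), T ω k)) := Finset.sum_le_sum fun ω _ => hdet ω
      have h8 : ∑ ω, (4 * Q ^ 2 * (86 * γl ^ 2) + 84 * γl ^ 2 / l *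
        (2 * Q * m + 4 * Q * ∑ k ∈ range (2 * Q), T ω k)) =
          G * (344 * Q ^ 2 * γl ^ 2) + 84 * γl ^ 2 / l *
            (G * (2 * Q * m) + 4 * Q * ∑ k ∈ range (2 * Q), ∑ ω, T ω k) := by
        rw [aux_sum]
        ring
      have h9 : ∑ k ∈ range (2 * Q), ∑ ω, T ω k ≤ 2 * Q * (G * (m / (8 * Q))) := by
        refine (Finset.sum_le_sum htr).trans_eq ?_
        rw [Finset.sum_const, Finset.card_range, nsmul_eq_mul]
        push_cast
        ring
      have h10 : 4 * Q * (2 * Q * (G * (m / (8 * Q)))) = G * (Q * m) := by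
        field_simp
        ring
      have h11 : 84 * γl ^ 2 / l * (G * (2 * Q * m) + 4 * Q * ∑ k ∈ range (2 * Q), ∑ ω, T ω k) ≤
          84 * γl ^ 2 / l * (G * (2 * Q * m) + G * (Q * m)) := by
        rw [← h10]
        gcongr
      have h12 : 84 * γl ^ 2 / l * (G * (2 * Q * m) + G * (Q * m)) =
          G * (252 * Q * γl ^ 2) * (m / l) := by
        field_simp
        ring
      have h13 : (m : ℝ) / l ≤ Q := by
        rw [div_le_iff₀ hlr]; exact hmlr
      have h14 : G * (252 * Q * γl ^ 2) * (m / l) ≤ G * (252 * Q * γl ^ 2) * Q :=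
        mul_le_mul_of_nonneg_left h13 (by positivity)
      rw [h8] at h7
      rw [h12] at h11
      calc ∑ ω, ‖S ω‖ ^ 2 ≤ _ := h7
        _ ≤ G * (344 * Q ^ 2 * γl ^ 2) + G * (252 * Q * γl ^ 2) * Q :=
          add_le_add le_rfl (h11.trans h14)
        _ = G * (596 * Q ^ 2 * γl ^ 2) := by ring
    have hnS : ‖∑ ω, S ω‖ ≤ G * (25 * Q * γl) := by
      have h7 : (∑ ω, ‖S ω‖) ^ 2 ≤ G * ∑ ω, ‖S ω‖ ^ 2 := by
        have := sq_sum_le_card_mul_sum_sq (s := (Finset.univ : Finset (Fin m → ZMod (2 * Q + 2))))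
          (f := fun ω => ‖S ω‖)
        rw [Finset.card_univ] at this
        exact this
      refine (norm_sum_le _ _).trans ?_
      have h9 : (0 : ℝ) ≤ ∑ ω, ‖S ω‖ := Finset.sum_nonneg fun ω _ => norm_nonneg _
      rw [← pow_le_pow_iff_left₀ h9 (by positivity) two_ne_zero]
      refine h7.trans ((mul_le_mul_of_nonneg_left hsum hG0.le).trans ?_)
      have h10 : (G * (25 * Q * γl)) ^ 2 = G * (G * (625 * Q ^ 2 * γl ^ 2)) := by ring
      rw [h10]
      gcongr
      norm_num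
    have htele := h5 A H π D hD (Fin m) x hx (√14 * γ1) (by positivity)
      (fun c c' u => h1 A H π D τ hD hτ hdix γ1 hγ1 hD1 (Fin m) x hx c c' u) (2 * Q + 2) Q hQ
      (by omega) θ hθ
    have htele' : ‖(∑ ω, S ω) - (Fintype.card (Fin m → ZMod (2 * Q + 2)) : ℂ) *
        (Q * ⟪θ, (amp D (Fin m) x * star (ampHom π (Fin m) x)) θ⟫_ℂ)‖ ≤
        G * (2 * (√14 * γ1) * Q ^ 3) := htele
    set z : ℂ := ⟪θ, (amp D (Fin m) x * star (ampHom π (Fin m) x)) θ⟫_ℂ with hz
    have h14 : √14 ≤ 4 := by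
      rw [Real.sqrt_le_left (by norm_num)]
      norm_num
    have hfin : G * (Q * ‖z‖) ≤ G * (25 * Q * γl) + G * (2 * (√14 * γ1) * Q ^ 3) := by
      have h7 : G * (Q * ‖z‖) = ‖(Fintype.card (Fin m → ZMod (2 * Q + 2)) : ℂ) * (Q * z)‖ := by
        rw [norm_mul, norm_mul, Complex.norm_natCast, Complex.norm_natCast]
      rw [h7]
      have h8 : (Fintype.card (Fin m → ZMod (2 * Q + 2)) : ℂ) * (Q * z) = (∑ ω, S ω) -
        ((∑ ω, S ω) - (Fintype.card (Fin m → ZMod (2 * Q + 2)) : ℂ) * (Q * z)) := by ring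
      rw [h8]
      exact (norm_sub_le _ _).trans (add_le_add hnS htele')
    have hfin2 : G * (2 * (√14 * γ1) * Q ^ 3) ≤ G * (8 * γ1 * Q ^ 3) := by
      have h15 : √14 * γ1 ≤ 4 * γ1 := mul_le_mul_of_nonneg_right h14 hγ1
      have h16 : 2 * (√14 * γ1) ≤ 8 * γ1 := by linarith
      exact mul_le_mul_of_nonneg_left (mul_le_mul_of_nonneg_right h16 (by positivity)) hG0.le
    have hfin3 : G * Q * ‖z‖ ≤ G * Q * (25 * γl + 8 * Q ^ 2 * γ1) := by
      calc G * Q * ‖z‖ = G * (Q * ‖z‖) := by ring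
        _ ≤ G * (25 * Q * γl) + G * (8 * γ1 * Q ^ 3) := hfin.trans (add_le_add le_rfl hfin2)
        _ = G * Q * (25 * γl + 8 * Q ^ 2 * γ1) := by ring
    exact le_of_mul_le_mul_left hfin3 (by positivity)
  intro X
  refine (h6 (CStarMatrix (Fin m) (Fin m) A) (HH (Fin m) H) (ampHom π (Fin m)) (amp D (Fin m))
    (hD.amp (Fin m)) (25 * γl + 8 * Q ^ 2 * γ1) (by positivity) hM X).trans_eq ?_
  ring

end H759R2.Kad
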